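import Mathlib
import Pool.Agent.Helper35.PI.St3

/-!
Module DPA of project PI (MP_b2fa09_gt): uniform graphical patches on complete immersions.
-/

namespace Helper70.PI

open Helper35.PI
open scoped ContDiff Manifold Topology ENNReal BigOperators NNReal
open MeasureTheory Set Filter

section

variable {n N : ℕ} {M : Type} [TopologicalSpace M] [ChartedSpace (EE n) M]

/-- orthogonality to the image of an isometry in terms of the adjoint -/
lemma adj_iff (L : EE n →ₗᵢ[ℝ] EE N) (w : EE N) (x : EE n) :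
    L.toContinuousLinearMap.adjoint w = x ↔ ∀ v : EE n, (inner ℝ (w - L x) (L v) : ℝ) = 0 := by
  constructor
  · intro h v
    have h1 : (inner ℝ (L.toContinuousLinearMap.adjoint w) v : ℝ) = inner ℝ w (L v) :=
      ContinuousLinearMap.adjoint_inner_left _ _ _
    rw [inner_sub_left, LinearIsometry.inner_map_map, ← h1, h, sub_self]
  · intro h
    refine ext_inner_right ℝ fun v => ?_
    have h1 : (inner ℝ (L.toContinuousLinearMap.adjoint w) v : ℝ) = inner ℝ w (L v) :=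
      ContinuousLinearMap.adjoint_inner_left _ _ _
    rw [h1]
    have h2 := h v
    rw [inner_sub_left, LinearIsometry.inner_map_map] at h2
    linarith

lemma two_le_inf : (2 : WithTop ℕ∞) ≤ ((⊤ : ℕ∞) : WithTop ℕ∞) := WithTop.coe_le_coe.2 le_top

lemma sp_congr {N : ℕ} {U V : Submodule ℝ (EE N)} (h : U = V) :
    U.starProjection = V.starProjection := by
  subst h; rfl

/-- a Lipschitz path on `[0,1)` has bounded variation -/
lemma bv_of_lip (g : ℝ → EE N) (C : ℝ) (hC : 0 ≤ C)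
    (h : ∀ σ ∈ Ico (0 : ℝ) 1, ∀ σ' ∈ Ico (0 : ℝ) 1, ‖g σ - g σ'‖ ≤ C * |σ - σ'|) :
    BoundedVariationOn g (Ico 0 1) := by
  have h1 : LipschitzOnWith (Real.toNNReal C) g (Ico 0 1) := by
    refine LipschitzOnWith.of_dist_le_mul fun x hx y hy => ?_
    rw [dist_eq_norm, Real.dist_eq, Real.coe_toNNReal C hC]
    exact h x hx y hy
  have h2 : BoundedVariationOn (fun x : ℝ => x) (Ico (0 : ℝ) 1) := by
    have h3 : MonotoneOn (fun x : ℝ => x) (Icc (0 : ℝ) 1) := fun a _ b _ hab => hab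
    have h4 := h3.eVariationOn_eq (left_mem_Icc.2 zero_le_one) (right_mem_Icc.2 zero_le_one)
    rw [inter_self] at h4
    have h5 : eVariationOn (fun x : ℝ => x) (Ico (0 : ℝ) 1) ≤ ENNReal.ofReal (1 - 0) :=
      (eVariationOn.mono _ Ico_subset_Icc_self).trans h4.le
    exact (lt_of_le_of_lt h5 ENNReal.ofReal_lt_top).ne
  exact h1.comp_boundedVariationOn (fun x hx => hx) h2

end

section

variable {n N : ℕ} {M : Type} [TopologicalSpace M] [T2Space M] [ChartedSpace (EE n) M]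
  [IsManifold (𝓡 n) ∞ M]

/-- the tangential projection -/
noncomputable def TP (F : M → ℝ → EE N) (t : ℝ) (q : M) : EE N →L[ℝ] EE N :=
  (TS (n := n) F q t).starProjection

omit [T2Space M] in
lemma loc_smooth (hI2 : StI2) {F : M → ℝ → EE N} (hF : IsMCF (n := n) F) {t : ℝ} (ht : t < 0)
    (p₀ : M) {x : EE n} (hx : x ∈ (chartAt (EE n) p₀).target) :
    ContDiffAt ℝ ∞ (loc (n := n) F p₀ t) x := by
  have h := hI2 n N M F hF p₀
  have hopen : IsOpen ((chartAt (EE n) p₀).target ×ˢ Iio (0 : ℝ)) :=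
    (chartAt (EE n) p₀).open_target.prod isOpen_Iio
  have hz : ContDiffAt ℝ ∞ (fun z : EE n × ℝ => F ((chartAt (EE n) p₀).symm z.1) z.2) (x, t) :=
    h.contDiffAt (hopen.mem_nhds ⟨hx, ht⟩)
  have h2 : ContDiffAt ℝ ∞ (fun y : EE n => (y, t)) x := contDiffAt_id.prodMk contDiffAt_const
  exact hz.comp x h2

omit [T2Space M] in
lemma TP_continuous (hI2 : StI2) (hI3 : StI3) (hDP : StDP) {F : M → ℝ → EE N}
    (hF : IsMCF (n := n) F) {t : ℝ} (ht : t < 0) : Continuous (TP (n := n) F t) := by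
  rw [continuous_iff_continuousAt]
  intro q₀
  have hsrc : (chartAt (EE n) q₀).source ∈ 𝓝 q₀ :=
    (chartAt (EE n) q₀).open_source.mem_nhds (mem_chart_source _ q₀)
  have hev : (fun q => Pr (loc (n := n) F q₀ t) (chartAt (EE n) q₀ q)) =ᶠ[𝓝 q₀]
      TP (n := n) F t := by
    filter_upwards [hsrc] with q hq
    obtain ⟨hLI, -, -, -, hT⟩ := hI3 n N M F hF q₀ q t ht hq
    have hs : ContDiffAt ℝ 2 (loc (n := n) F q₀ t) (chartAt (EE n) q₀ q) :=
      (loc_smooth hI2 hF ht q₀ ((chartAt (EE n) q₀).map_source hq)).of_le two_le_inf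
    obtain ⟨-, -, h3, -⟩ := hDP n N _ _ hs hLI
    refine ContinuousLinearMap.ext fun v => ?_
    rw [h3 v, TP, sp_congr hT]
  have hq₀ := mem_chart_source (EE n) q₀
  obtain ⟨hLI, -, -, -, -⟩ := hI3 n N M F hF q₀ q₀ t ht hq₀
  have hs : ContDiffAt ℝ 2 (loc (n := n) F q₀ t) (chartAt (EE n) q₀ q₀) :=
    (loc_smooth hI2 hF ht q₀ ((chartAt (EE n) q₀).map_source hq₀)).of_le two_le_inf
  obtain ⟨h1, -, -, -⟩ := hDP n N _ _ hs hLI
  have h2 : ContinuousAt (fun q => Pr (loc (n := n) F q₀ t) (chartAt (EE n) q₀ q)) q₀ :=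
    ContinuousAt.comp (g := Pr (loc (n := n) F q₀ t)) h1.continuousAt
      ((chartAt (EE n) q₀).continuousAt hq₀)
  exact h2.congr hev

omit [T2Space M] [IsManifold (𝓡 n) ∞ M] in
lemma F_continuous {F : M → ℝ → EE N} (hF : IsMCF (n := n) F) {t : ℝ} (ht : t < 0) :
    Continuous (fun q => F q t) := by
  have h := hF.smooth.continuousOn
  have h2 : Continuous (fun q : M => (q, t)) := by fun_prop
  have h3 : ContinuousOn (fun q : M => F q t) univ :=
    h.comp (f := fun q : M => (q, t)) h2.continuousOn (fun q _ => ⟨mem_univ _, ht⟩)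
  exact continuousOn_univ.1 h3

omit [T2Space M] in
lemma local_homeo (hI2 : StI2) (hI3 : StI3) {F : M → ℝ → EE N} (hF : IsMCF (n := n) F)
    {t : ℝ} (ht : t < 0) (p : M) (L : EE n →ₗᵢ[ℝ] EE N)
    (hL : LinearMap.range L.toLinearMap = TS (n := n) F p t)
    (O : Set M) (hO : IsOpen O) (q₀ : M) (hq₀ : q₀ ∈ O)
    (hlt : ‖TP (n := n) F t q₀ - TP (n := n) F t p‖ < 1 / 2) :
    ∃ e : OpenPartialHomeomorph M (EE n), q₀ ∈ e.source ∧ e.source ⊆ O ∧
      ∀ q' ∈ e.source, L.toContinuousLinearMap.adjoint (F q' t - F p t) = e q' := by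
  have hsrc : q₀ ∈ (chartAt (EE n) q₀).source := mem_chart_source _ q₀
  have htgt : chartAt (EE n) q₀ q₀ ∈ (chartAt (EE n) q₀).target :=
    (chartAt (EE n) q₀).map_source hsrc
  obtain ⟨hLI, -, -, -, hT⟩ := hI3 n N M F hF q₀ q₀ t ht hsrc
  have hfs : ContDiffAt ℝ ∞ (loc (n := n) F q₀ t) (chartAt (EE n) q₀ q₀) :=
    loc_smooth hI2 hF ht q₀ htgt
  generalize hx₀ : chartAt (EE n) q₀ q₀ = x₀ at *
  set f := loc (n := n) F q₀ t with hf
  set A := L.toContinuousLinearMap.adjoint with hA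
  have hstrict : HasStrictFDerivAt f (fderiv ℝ f x₀) x₀ := hfs.hasStrictFDerivAt (by simp)
  have hg : HasStrictFDerivAt (fun y => A (f y - F p t)) (A.comp (fderiv ℝ f x₀)) x₀ :=
    A.hasStrictFDerivAt.comp x₀ (hstrict.sub_const _)
  have hsum : ∀ ξ : EE n, fderiv ℝ f x₀ ξ = ∑ i, ξ i • dv1 f x₀ i := by
    intro ξ
    have h1 : ξ = ∑ i, ξ i • (ee i : EE n) := by
      ext j
      simp [ee, Finset.sum_apply, Pi.single_apply]
    conv_lhs => rw [h1]
    rw [map_sum]
    refine Finset.sum_congr rfl fun i _ => ?_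
    rw [map_smul]
    rfl
  have hinj : ∀ ξ : EE n, (A.comp (fderiv ℝ f x₀)) ξ = 0 → ξ = 0 := by
    intro ξ hξ
    have hw0 : A (fderiv ℝ f x₀ ξ) = 0 := hξ
    have hmem : fderiv ℝ f x₀ ξ ∈ TS (n := n) F q₀ t := by
      rw [hT, hsum]
      exact Submodule.sum_mem _ fun i _ => Submodule.smul_mem _ _
        (Submodule.subset_span ⟨i, rfl⟩)
    have h1 : TP (n := n) F t q₀ (fderiv ℝ f x₀ ξ) = fderiv ℝ f x₀ ξ :=
      Submodule.starProjection_eq_self_iff.mpr hmem
    have h2 : TP (n := n) F t p (fderiv ℝ f x₀ ξ) = 0 := by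
      refine Submodule.eq_starProjection_of_mem_of_inner_eq_zero (Submodule.zero_mem _) ?_
      intro w hw
      rw [← hL] at hw
      obtain ⟨v, rfl⟩ := hw
      have h3 := (adj_iff L (fderiv ℝ f x₀ ξ) 0).1 hw0 v
      rw [map_zero] at h3
      exact h3
    have h3 : ‖fderiv ℝ f x₀ ξ‖ ≤ 1 / 2 * ‖fderiv ℝ f x₀ ξ‖ := by
      calc ‖fderiv ℝ f x₀ ξ‖
          = ‖(TP (n := n) F t q₀ - TP (n := n) F t p) (fderiv ℝ f x₀ ξ)‖ := by
            rw [sub_apply, h1, h2, sub_zero]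
        _ ≤ ‖TP (n := n) F t q₀ - TP (n := n) F t p‖ * ‖fderiv ℝ f x₀ ξ‖ :=
            ContinuousLinearMap.le_opNorm _ _
        _ ≤ 1 / 2 * ‖fderiv ℝ f x₀ ξ‖ :=
            mul_le_mul_of_nonneg_right hlt.le (norm_nonneg _)
    have h4 : fderiv ℝ f x₀ ξ = 0 := by
      rw [← norm_le_zero_iff]
      linarith [norm_nonneg (fderiv ℝ f x₀ ξ)]
    rw [hsum] at h4
    have h5 := Fintype.linearIndependent_iff.1 hLI (fun i => ξ i) h4
    ext j
    exact h5 j
  have hinj' : Function.Injective (A.comp (fderiv ℝ f x₀)).toLinearMap := by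
    rw [← LinearMap.ker_eq_bot, LinearMap.ker_eq_bot']
    exact hinj
  set E' : EE n ≃L[ℝ] EE n :=
    (LinearEquiv.ofInjectiveEndo (A.comp (fderiv ℝ f x₀)).toLinearMap hinj').toContinuousLinearEquiv
    with hE'
  have hE'' : (E' : EE n →L[ℝ] EE n) = A.comp (fderiv ℝ f x₀) := by
    ext ξ
    simp [hE']
  rw [← hE''] at hg
  set e₀ := hg.toOpenPartialHomeomorph (fun y => A (f y - F p t)) with he₀
  have he₀c : ∀ y, e₀ y = A (f y - F p t) := fun y => by
    rw [he₀, HasStrictFDerivAt.toOpenPartialHomeomorph_coe]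
  have he₀s : x₀ ∈ e₀.source := hg.mem_toOpenPartialHomeomorph_source
  refine ⟨((chartAt (EE n) q₀).trans e₀).restrOpen O hO, ?_, ?_, ?_⟩
  · rw [OpenPartialHomeomorph.restrOpen_source, OpenPartialHomeomorph.trans_source]
    refine ⟨⟨hsrc, ?_⟩, hq₀⟩
    rw [mem_preimage, hx₀]
    exact he₀s
  · rw [OpenPartialHomeomorph.restrOpen_source]
    exact inter_subset_right
  · intro q' hq'
    rw [OpenPartialHomeomorph.restrOpen_source, OpenPartialHomeomorph.trans_source] at hq'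
    rw [OpenPartialHomeomorph.coe_restrOpen, OpenPartialHomeomorph.coe_trans,
      Function.comp_apply, he₀c, hf, loc, (chartAt (EE n) q₀).left_inv hq'.1.1]

/-- DPA -/
theorem hDPA (hDE : StDE) (hDL : StDL) (hDP : StDP) (hI2 : StI2) (hI3 : StI3) : StDPA := by
  intro n N hn M _ _ _ _ F hF t Λ ρ p L ht hcomp hΛ hρ hρΛ hL hA
  have hTPc := TP_continuous hI2 hI3 hDP hF ht
  have hFc := F_continuous hF ht
  set A := L.toContinuousLinearMap.adjoint with hAdef
  set O : Set M := {q | ‖TP (n := n) F t q - TP (n := n) F t p‖ < 1 / 2} with hOdef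
  have hO : IsOpen O := isOpen_lt (by fun_prop) continuous_const
  have hpO : p ∈ O := by
    show ‖TP (n := n) F t p - TP (n := n) F t p‖ < 1 / 2
    rw [sub_self, norm_zero]; norm_num
  -- the condition on the lift in the form of `DE`
  have hlift : ∀ (x : EE n) (σ : ℝ) (q : M), A (F q t - F p t) = σ • x →
      ∀ v : EE n, (inner ℝ (F q t - F p t - σ • L x) (L v) : ℝ) = 0 := by
    intro x σ q h v
    have h1 := (adj_iff L (F q t - F p t) (σ • x)).1 h v
    rwa [map_smul] at h1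
  obtain ⟨S, hSc, hS0, hS1, hS2⟩ := hDL n M O (fun q => A (F q t - F p t)) p (2 * ρ)
    (by positivity) hO hpO (by simp) (fun q hq => local_homeo hI2 hI3 hF ht p L hL O hO q hq hq)
    (by
      intro x hx s hs hs1 γ hγ hγ0 hγO
      have hde := hDE n N hn M F hF t Λ ρ p L ht hΛ hρ hρΛ hL hA x hx s hs hs1 γ hγ hγ0
        (fun σ hσ => ⟨(hγO σ hσ).1, hlift x σ (γ σ) (hγO σ hσ).2⟩)
      -- reparametrisation
      have hmaps : ∀ r ∈ Ico (0 : ℝ) 1, s * r ∈ Ico 0 s := fun r hr =>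
        ⟨mul_nonneg hs.le hr.1, by nlinarith [hr.2]⟩
      have hγ' : ContinuousOn (fun r => γ (s * r)) (Ico 0 1) :=
        hγ.comp (f := fun r : ℝ => s * r) (by fun_prop) hmaps
      have hbv : BoundedVariationOn (fun r => F (γ (s * r)) t) (Ico 0 1) := by
        refine bv_of_lip _ (2 * ‖x‖) (by positivity) ?_
        intro σ hσ σ' hσ'
        refine ((hde _ (hmaps σ hσ) _ (hmaps σ' hσ')).1).trans ?_
        refine mul_le_mul_of_nonneg_left ?_ (by positivity)
        rw [← mul_sub, abs_mul, abs_of_pos hs]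
        exact mul_le_of_le_one_left (abs_nonneg _) hs1
      obtain ⟨q, hq⟩ := hcomp _ hγ' hbv
      have htend : Tendsto γ (𝓝[<] s) (𝓝 q) := by
        have h1 : Tendsto (fun σ : ℝ => σ / s) (𝓝[<] s) (𝓝[<] 1) := by
          refine tendsto_nhdsWithin_iff.2 ⟨?_, ?_⟩
          · have h2 : Tendsto (fun σ : ℝ => σ / s) (𝓝 s) (𝓝 (s / s)) :=
              (continuous_id.div_const s).tendsto s
            rw [div_self hs.ne'] at h2
            exact h2.mono_left nhdsWithin_le_nhds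
          · filter_upwards [self_mem_nhdsWithin] with σ hσ
            exact (div_lt_one hs).2 hσ
        have h2 := hq.comp h1
        refine h2.congr fun σ => ?_
        simp only [Function.comp_apply]
        rw [mul_div_cancel₀ _ hs.ne']
      refine ⟨q, ?_, htend⟩
      have h3 : Tendsto (fun σ => ‖TP (n := n) F t (γ σ) - TP (n := n) F t p‖) (𝓝[<] s)
          (𝓝 ‖TP (n := n) F t q - TP (n := n) F t p‖) :=
        (((hTPc.tendsto q).comp htend).sub_const _).norm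
      have h4 : ∀ᶠ σ in 𝓝[<] s, ‖TP (n := n) F t (γ σ) - TP (n := n) F t p‖ ≤ 1 / 4 := by
        filter_upwards [Ioo_mem_nhdsLT hs] with σ hσ
        exact (hde σ ⟨hσ.1.le, hσ.2⟩ σ ⟨hσ.1.le, hσ.2⟩).2
      have h5 := le_of_tendsto h3 h4
      show ‖TP (n := n) F t q - TP (n := n) F t p‖ < 1 / 2
      linarith)
  refine ⟨S, hSc, hS0, fun x hx => ⟨?_, ?_⟩, hS2⟩
  · have hxn : ‖x‖ ≤ 2 * ρ := by simpa using hx
    have hball : ∀ σ ∈ Icc (0 : ℝ) 1, σ • x ∈ Metric.closedBall (0 : EE n) (2 * ρ) := by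
      intro σ hσ
      rw [mem_closedBall_zero_iff, norm_smul, Real.norm_eq_abs, abs_of_nonneg hσ.1]
      exact (mul_le_of_le_one_left (norm_nonneg _) hσ.2).trans hxn
    have hγc : ContinuousOn (fun σ : ℝ => S (σ • x)) (Icc 0 1) :=
      hSc.comp (f := fun σ : ℝ => σ • x) (by fun_prop) hball
    have hde := hDE n N hn M F hF t Λ ρ p L ht hΛ hρ hρΛ hL hA x hxn 1 one_pos le_rfl
      (fun σ => S (σ • x)) (hγc.mono Ico_subset_Icc_self) (by simp [hS0])
      (fun σ hσ => ⟨(hS1 _ (hball σ ⟨hσ.1, hσ.2.le⟩)).1,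
        hlift x σ _ (hS1 _ (hball σ ⟨hσ.1, hσ.2.le⟩)).2⟩)
    have h1 : Tendsto (fun σ : ℝ => S (σ • x)) (𝓝[<] 1) (𝓝 (S x)) := by
      have h2 : Tendsto (fun σ : ℝ => S (σ • x)) (𝓝[Icc 0 1] 1) (𝓝 (S ((1 : ℝ) • x))) :=
        hγc 1 (right_mem_Icc.2 zero_le_one)
      rw [one_smul] at h2
      refine h2.mono_left ?_
      rw [← nhdsWithin_Ioo_eq_nhdsLT (zero_lt_one (α := ℝ))]
      exact nhdsWithin_mono _ Ioo_subset_Icc_self
    have h3 : Tendsto (fun σ : ℝ => ‖F (S (σ • x)) t - F p t‖) (𝓝[<] 1)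
        (𝓝 ‖F (S x) t - F p t‖) := (((hFc.tendsto (S x)).comp h1).sub_const _).norm
    refine le_of_tendsto h3 ?_
    filter_upwards [Ioo_mem_nhdsLT (zero_lt_one (α := ℝ))] with σ hσ
    have h4 := (hde σ ⟨hσ.1.le, hσ.2⟩ 0 ⟨le_rfl, zero_lt_one⟩).1
    simp only [zero_smul, hS0, sub_zero] at h4
    refine h4.trans ?_
    rw [abs_of_pos hσ.1]
    exact mul_le_of_le_one_right (by positivity) hσ.2.le
  · exact (adj_iff L (F (S x) t - F p t) x).1 (hS1 x hx).2

end

end Helper70.PI
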